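import Pool.Agent.J6H94.AP.Stm

set_option autoImplicit false

/-! Module AP-MAX (helper94): a maximum principle. -/

namespace Pool.Agent.J6H35.AP

open Pool.Agent.J6H94.AP

theorem convex_inv {w A B : ℝ} (hw0 : 0 < w) (hw1 : w < 1) (hA : 0 < A) (hB : 0 < B) (hAB : A ≠ B) :
    1 / ((1 - w) * A + w * B) < (1 - w) / A + w / B := by
  have hD : 0 < (1 - w) * A + w * B := by
    have h1 : 0 < (1 - w) * A := mul_pos (by linarith) hA
    have h2 : 0 < w * B := mul_pos hw0 hB
    linarith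
  have h1 : (1 - w) / A + w / B = ((1 - w) * B + w * A) / (A * B) := by
    field_simp
  rw [h1, div_lt_div_iff₀ hD (mul_pos hA hB)]
  have h2 : 0 < w * (1 - w) * (A - B) ^ 2 :=
    mul_pos (mul_pos hw0 (by linarith)) (by have := sub_ne_zero.mpr hAB; positivity)
  nlinarith

theorem key {r : ℝ} {h G : ℝ → ℝ} (hG : Good r h) (hc : Continuous G)
    (rel : ∀ s, G (s + r * h s) = (1 - r ^ 2) * G s + r ^ 2 * G (s + h s / r))
    (gro : ∀ η > 0, ∃ R, ∀ s ≥ R, G s ≤ η * s) {y₀ : ℝ} (hy₀ : ∀ y ∈ Set.Icc 0 (r * h 0), G y ≤ G y₀)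
    (ε : ℝ) (hε : 0 < ε) (y : ℝ) (hy : 0 ≤ y) : G y ≤ G y₀ + ε + ε * y := by
  have hr0 := hG.r0
  have hr1 := hG.r1
  have hcont : Continuous h := by
    have : LipschitzWith 1 h := LipschitzWith.of_dist_le_mul fun s t => by
      rw [Real.dist_eq, Real.dist_eq, NNReal.coe_one, one_mul]
      exact hG.lip s t
    exact this.continuous
  set F : ℝ → ℝ := fun y => G y - ε * y + ε / (1 + y) with hF
  obtain ⟨R, hR⟩ := gro (ε / 2) (by positivity)
  set R' : ℝ := max (max R 0) (2 * |G 0| / ε + 1) with hR'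
  have hR'0 : 0 ≤ R' := le_trans (le_max_right _ _) (le_max_left _ _)
  have hlarge : ∀ y, R' ≤ y → F y < F 0 := by
    intro y hy
    have h1 : R ≤ y := le_trans (le_trans (le_max_left _ _) (le_max_left _ _)) hy
    have h2 : 0 ≤ y := hR'0.trans hy
    have h3 : 2 * |G 0| / ε + 1 ≤ y := le_trans (le_max_right _ _) hy
    have h4 := hR y h1
    have h5 : 2 * |G 0| + ε ≤ ε * y := by
      have : ε * (2 * |G 0| / ε + 1) ≤ ε * y := mul_le_mul_of_nonneg_left h3 hε.le
      have h6 : ε * (2 * |G 0| / ε + 1) = 2 * |G 0| + ε := by field_simp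
      linarith
    have h7 : ε / (1 + y) ≤ ε := div_le_self hε.le (by linarith)
    have h8 := neg_abs_le (G 0)
    simp only [hF]
    rw [mul_zero, add_zero, div_one]
    linarith
  have hFc : ContinuousOn F (Set.Icc 0 R') := by
    refine ContinuousOn.add ?_ ?_
    · exact (hc.sub (continuous_const.mul continuous_id)).continuousOn
    · refine ContinuousOn.div continuousOn_const (continuous_const.add continuous_id).continuousOn ?_
      intro x hx
      have := hx.1
      positivity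
  obtain ⟨y₁, hy₁, hmax⟩ := isCompact_Icc.exists_isMaxOn (Set.nonempty_Icc.mpr hR'0) hFc
  have hglob : ∀ y, 0 ≤ y → F y ≤ F y₁ := by
    intro y hy
    rcases le_total y R' with h | h
    · exact hmax ⟨hy, h⟩
    · exact (hlarge y h).le.trans (hmax ⟨le_rfl, hR'0⟩)
  have hy₁c : y₁ ≤ r * h 0 := by
    by_contra hcon
    push Not at hcon
    have hφ : ContinuousOn (fun s => s + r * h s) (Set.Icc 0 y₁) :=
      (continuous_id.add (continuous_const.mul hcont)).continuousOn
    have hmem : y₁ ∈ Set.Icc ((fun s => s + r * h s) 0) ((fun s => s + r * h s) y₁) := by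
      refine ⟨?_, ?_⟩
      · simpa using hcon.le
      · have := mul_pos hr0 (hG.pos y₁)
        simp only
        linarith
    obtain ⟨s, hs, hsy⟩ := intermediate_value_Icc hy₁.1 hφ hmem
    simp only at hsy
    have hs0 : 0 ≤ s := hs.1
    have hhs := hG.pos s
    have hdiv : 0 < h s / r := div_pos hhs hr0
    set t := s + h s / r with ht
    have hst : s < t := by linarith
    have hyt : (1 - r ^ 2) * (1 + s) + r ^ 2 * (1 + t) = 1 + y₁ := by
      rw [← hsy, ht]
      field_simp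
      ring
    have h1 := rel s
    rw [hsy, ← ht] at h1
    have h2 := hglob s hs0
    have h3 := hglob t (by linarith)
    have hw0 : 0 < r ^ 2 := by positivity
    have hw1 : r ^ 2 < 1 := by nlinarith
    have h4 := convex_inv hw0 hw1 (by linarith : 0 < 1 + s) (by linarith : 0 < 1 + t)
      (by intro h; linarith)
    rw [hyt] at h4
    have h5 : (1 - r ^ 2) * F s + r ^ 2 * F t ≤ F y₁ := by
      have e1 : (1 - r ^ 2) * F s ≤ (1 - r ^ 2) * F y₁ := mul_le_mul_of_nonneg_left h2 (by linarith)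
      have e2 : r ^ 2 * F t ≤ r ^ 2 * F y₁ := mul_le_mul_of_nonneg_left h3 hw0.le
      linarith
    have h6 : (1 - r ^ 2) * F s + r ^ 2 * F t =
        ((1 - r ^ 2) * G s + r ^ 2 * G t) - ε * y₁ + ε * ((1 - r ^ 2) / (1 + s) + r ^ 2 / (1 + t)) := by
      have : y₁ = (1 - r ^ 2) * s + r ^ 2 * t := by linarith
      simp only [hF]
      rw [this]
      ring
    have h7 : F y₁ = G y₁ - ε * y₁ + ε * (1 / (1 + y₁)) := by
      simp only [hF]
      ring
    rw [h6, h7, ← h1] at h5
    have h8 := mul_lt_mul_of_pos_left h4 hε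
    linarith
  have e1 := hglob y hy
  have e2 := hy₀ y₁ ⟨hy₁.1, hy₁c⟩
  have e3 : ε / (1 + y₁) ≤ ε := div_le_self hε.le (by linarith [hy₁.1])
  have e4 : 0 ≤ ε / (1 + y) := by positivity
  have e5 : 0 ≤ ε * y₁ := mul_nonneg hε.le hy₁.1
  simp only [hF] at e1
  linarith

theorem aMax : S_max := by
  intro r h G hG hc rel gro
  have hc0 : 0 ≤ r * h 0 := (mul_pos hG.r0 (hG.pos 0)).le
  obtain ⟨y₀, hy₀, hmax⟩ := isCompact_Icc.exists_isMaxOn (Set.nonempty_Icc.mpr hc0) hc.continuousOn
  refine ⟨y₀, hy₀, fun y hy => ?_⟩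
  refine le_of_forall_pos_le_add fun δ hδ => ?_
  have hy' : 0 ≤ y := hy
  have h1 := key hG hc rel gro (y₀ := y₀) (fun y hy => hmax hy) (δ / (1 + y)) (by positivity) y hy'
  have h2 : δ / (1 + y) + δ / (1 + y) * y = δ := by
    field_simp
  linarith

end Pool.Agent.J6H35.AP
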